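import Mathlib
set_option autoImplicit false

/-! # Translates of a set of positive measure by a countable dense set -/

namespace Pool.Agent.R943.Pla

open MeasureTheory Set Filter Topology
open scoped ENNReal symmDiff

/-- If all translates of `K` are almost disjoint from `C`, one of the two is null. -/
theorem null_of_translates {K C : Set ℝ} (hK : MeasurableSet K) (hC : MeasurableSet C)
    (h : ∀ t : ℝ, volume ({x | x + t ∈ K} ∩ C) = 0) : volume K = 0 ∨ volume C = 0 := by
  by_contra hcon
  push Not at hcon
  obtain ⟨hK0, hC0⟩ := hcon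
  set S : Set (ℝ × ℝ) := {p | p.2 + p.1 ∈ K ∧ p.2 ∈ C} with hS
  have hSm : MeasurableSet S := by
    apply MeasurableSet.inter
    · exact (measurable_snd.add measurable_fst) hK
    · exact measurable_snd hC
  have h1 : (volume : Measure (ℝ × ℝ)) S = 0 := by
    rw [Measure.volume_eq_prod, Measure.measure_prod_null hSm]
    filter_upwards with t
    exact h t
  have h2 : (volume : Measure (ℝ × ℝ)) (Prod.swap ⁻¹' S) = 0 := by
    have := (Measure.measurePreserving_swap (μ := (volume : Measure ℝ))
      (ν := (volume : Measure ℝ))).measure_preimage hSm.nullMeasurableSet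
    rw [← Measure.volume_eq_prod] at this
    rw [this]
    exact h1
  rw [Measure.volume_eq_prod, Measure.measure_prod_null (measurable_swap hSm)] at h2
  have h3 : ∀ᵐ x : ℝ, x ∉ C := by
    filter_upwards [h2] with x hx hxC
    apply hK0
    have : Prod.mk x ⁻¹' (Prod.swap ⁻¹' S) = (fun t => x + t) ⁻¹' K := by
      ext t
      simp only [hS, Set.mem_preimage, Prod.swap_prod_mk, Set.mem_ofPred_eq]
      exact ⟨fun h => h.1, fun h => ⟨h, hxC⟩⟩
    rw [this] at hx
    simpa [measure_preimage_add] using hx
  exact hC0 (by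
    have := measure_eq_zero_iff_ae_notMem.2 h3
    exact this)

/-- The translates of a set of positive measure by a dense countable set cover almost everything. -/
theorem conull_translates {B Q : Set ℝ} (hB : MeasurableSet B) (hB0 : volume B ≠ 0)
    (hQ : Dense Q) (hQc : Q.Countable) : volume {x : ℝ | ∀ q ∈ Q, x + q ∉ B} = 0 := by
  obtain ⟨K, hKB, hKc, hK0⟩ : ∃ K ⊆ B, IsCompact K ∧ 0 < volume K := by
    obtain ⟨K, hKB, hKc, hK⟩ := hB.exists_lt_isCompact (pos_iff_ne_zero.2 hB0)
    exact ⟨K, hKB, hKc, hK⟩
  set C : Set ℝ := {x : ℝ | ∀ q ∈ Q, x + q ∉ B} with hC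
  have hCm : MeasurableSet C := by
    have : C = ⋂ q ∈ Q, {x | x + q ∈ Bᶜ} := by
      ext x
      simp [hC]
    rw [this]
    exact MeasurableSet.biInter hQc fun q _ => (measurable_add_const q) hB.compl
  by_contra hC0
  have hall : ∀ t : ℝ, volume ({x | x + t ∈ K} ∩ C) = 0 := by
    intro t
    by_contra ht
    -- approximate `t` by `q ∈ Q`
    have hKfin : volume K ≠ ⊤ := hKc.measure_lt_top.ne
    let F : ℝ → C(ℝ, ℝ) := fun s => ⟨fun x => x + s, by fun_prop⟩
    have hF : Tendsto F (𝓝 t) (𝓝 (F t)) := by
      have : Continuous F := by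
        apply ContinuousMap.continuous_of_continuous_uncurry
        simp only [F, Function.uncurry_def]
        exact continuous_snd.add continuous_fst
      exact this.tendsto t
    have hlim := tendsto_measure_symmDiff_preimage_nhds_zero (μ := (volume : Measure ℝ))
      (ν := (volume : Measure ℝ)) (s := K) hF
      (Eventually.of_forall fun s => measurePreserving_add_right volume s)
      (measurePreserving_add_right volume t) hKc.measurableSet.nullMeasurableSet hKfin
    have hev := hlim.eventually (gt_mem_nhds (pos_iff_ne_zero.2 ht))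
    obtain ⟨q, hq1, hq2⟩ := (hQ.inter_nhds_nonempty hev)
    have hsub : {x | x + t ∈ K} ∩ C ⊆ (F q ⁻¹' K) ∆ (F t ⁻¹' K) := by
      rintro x ⟨hx, hxC⟩
      refine Or.inr ⟨hx, fun hxq => ?_⟩
      exact hxC q hq1 (hKB hxq)
    exact absurd (measure_mono hsub) (not_le.2 hq2)
  rcases null_of_translates hKc.measurableSet hCm hall with h | h
  · exact hK0.ne' h
  · exact hC0 h

end Pool.Agent.R943.Pla
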