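import Pool.Agent.R943.Pla.Struct
set_option autoImplicit false

/-! # A strong Sierpiński set from a base of `ℵ₁` null sets -/

namespace Pool.Agent.R943.Pla

open MeasureTheory Set Filter Topology Cardinal
open scoped ENNReal

/-- null sets in `n + 1` variables have null sections in the last variable almost everywhere -/
theorem null_sections {n : ℕ} {M : Set (Fin (n + 1) → ℝ)} (hM : volume M = 0) :
    volume {s : Fin n → ℝ | volume {r : ℝ | (Fin.snoc s r : Fin (n + 1) → ℝ) ∈ M} ≠ 0} = 0 := by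
  have h1 := (volume_preserving_piFinSuccAbove (fun _ : Fin (n + 1) => ℝ) (Fin.last n)).symm
  have h2 : (volume : Measure (ℝ × (Fin n → ℝ)))
      ((MeasurableEquiv.piFinSuccAbove (fun _ : Fin (n + 1) => ℝ) (Fin.last n)).symm ⁻¹' M) = 0 :=
    h1.quasiMeasurePreserving.preimage_null hM
  have h3 := (Measure.measurePreserving_swap (μ := (volume : Measure (Fin n → ℝ)))
      (ν := (volume : Measure ℝ))).quasiMeasurePreserving.preimage_null
      (s := ((MeasurableEquiv.piFinSuccAbove (fun _ : Fin (n + 1) => ℝ) (Fin.last n)).symm ⁻¹' M))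
      h2
  have h4 := Measure.measure_ae_null_of_prod_null h3
  rw [Filter.EventuallyEq, ae_iff] at h4
  refine measure_mono_null (fun s hs => ?_) h4
  simp only [Set.mem_ofPred_eq] at hs ⊢
  intro h5
  apply hs
  refine measure_mono_null ?_ h5
  intro r hr
  simp only [Set.mem_ofPred_eq] at hr
  simp only [Set.mem_preimage, Prod.swap_prod_mk]
  convert hr using 1
  ext i
  simp [MeasurableEquiv.piFinSuccAbove, Fin.insertNthEquiv, Fin.insertNth_last']

/-- a recursion on a well-ordered type -/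
theorem exists_rec {ι : Type} [LinearOrder ι] [WellFoundedLT ι]
    (B : (α : ι) → ((β : Iio α) → ℝ) → Set ℝ) (hB : ∀ α p, ∃ r, r ∉ B α p) :
    ∃ x : ι → ℝ, ∀ α, x α ∉ B α (fun β => x β) := by
  choose c hc using hB
  let wf : WellFounded (· < · : ι → ι → Prop) := wellFounded_lt
  let x : ι → ℝ := wf.fix (fun α ih => c α (fun β => ih β β.2))
  refine ⟨x, fun α => ?_⟩
  have : x α = c α (fun β => x β) := wf.fix_eq _ α
  rw [this]
  exact hc _ _

/-- permuted coordinates -/
theorem null_perm {n : ℕ} {N : Set (Fin n → ℝ)} (hN : volume N = 0) (σ : Equiv.Perm (Fin n)) :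
    volume {v : Fin n → ℝ | v ∘ σ ∈ N} = 0 := by
  have h := (volume_measurePreserving_piCongrLeft (fun _ : Fin n => ℝ) σ.symm)
  have h2 := h.quasiMeasurePreserving.preimage_null hN
  refine measure_mono_null (fun v hv => ?_) h2
  simp only [Set.mem_ofPred_eq] at hv
  simp only [Set.mem_preimage]
  convert hv using 1
  ext i
  rw [MeasurableEquiv.coe_piCongrLeft, Equiv.piCongrLeft_apply]
  simp

theorem exists_seq (ι : Type) [LinearOrder ι] [WellFoundedLT ι] [Nonempty ι]
    (hι : ∀ α : ι, (Iic α).Countable)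
    (N : (n : ℕ) → ι → Set (Fin n → ℝ)) (hN : ∀ n β, volume (N n β) = 0)
    (hcof : ∀ n (M : Set (Fin n → ℝ)), volume M = 0 → ∃ β, M ⊆ N n β) :
    ∃ x : ι → ℝ, Function.Injective x ∧ ∀ n (M : Set (Fin n → ℝ)), volume M = 0 →
      ∃ δ : ι, ∀ t : Fin n → ι, Function.Injective t → (∀ i, δ ≤ t i) → x ∘ t ∉ M := by
  classical
  let sec : (n : ℕ) → ι → (Fin n → ℝ) → Set ℝ := fun n β s =>
    if volume {r : ℝ | (Fin.snoc s r : Fin (n + 1) → ℝ) ∈ N (n + 1) β} = 0 then
      {r : ℝ | (Fin.snoc s r : Fin (n + 1) → ℝ) ∈ N (n + 1) β} else ∅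
  have hsec : ∀ n β s, volume (sec n β s) = 0 := by
    intro n β s
    simp only [sec]
    split_ifs with h
    · exact h
    · simp
  obtain ⟨x, hx⟩ := exists_rec (ι := ι) (fun α p => range p ∪
    ⋃ n : ℕ, ⋃ β : Iic α, ⋃ t : Fin n → Iio α, sec n β (fun i => p (t i))) (by
      intro α p
      have : Countable (Iio α) := ((hι α).mono Iio_subset_Iic_self).to_subtype
      have : Countable (Iic α) := (hι α).to_subtype
      have h0 : volume (range p ∪
          ⋃ n : ℕ, ⋃ β : Iic α, ⋃ t : Fin n → Iio α, sec n β (fun i => p (t i))) = 0 := by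
        rw [measure_union_null_iff]
        refine ⟨(countable_range p).measure_zero _, ?_⟩
        simp only [measure_iUnion_null_iff]
        intro n β t
        exact hsec _ _ _
      by_contra hcon
      push Not at hcon
      have : (range p ∪
          ⋃ n : ℕ, ⋃ β : Iic α, ⋃ t : Fin n → Iio α, sec n β (fun i => p (t i))) = Set.univ :=
        eq_univ_of_forall hcon
      rw [this] at h0
      simp at h0)
  have hinj : Function.Injective x := by
    have key : ∀ a b, a < b → x b ≠ x a := by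
      intro a b hab h
      exact hx b (Or.inl ⟨⟨a, hab⟩, h.symm⟩)
    intro a b hab
    rcases lt_trichotomy a b with h | h | h
    · exact absurd hab.symm (key a b h)
    · exact h
    · exact absurd hab (key b a h)
  have hmono : ∀ n (M : Set (Fin n → ℝ)), volume M = 0 →
      ∃ δ : ι, ∀ t : Fin n → ι, StrictMono t → (∀ i, δ ≤ t i) → x ∘ t ∉ M := by
    intro n
    induction n with
    | zero =>
      intro M hM
      refine ⟨Classical.arbitrary ι, fun t _ _ ht => ?_⟩
      have : M = Set.univ := by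
        ext v
        rw [Subsingleton.elim v (x ∘ t)]
        simp [ht]
      rw [this, volume_pi, Measure.pi_univ] at hM
      simp at hM
    | succ n ih =>
      intro M hM
      obtain ⟨β, hβ⟩ := hcof (n + 1) M hM
      obtain ⟨δ, hδ⟩ := ih _ (null_sections (hN (n + 1) β))
      refine ⟨max δ β, fun t ht hge hmem => ?_⟩
      have h1 := hδ (fun i => t i.castSucc) (fun i j hij => ht (Fin.castSucc_lt_castSucc_iff.2 hij))
        (fun i => (le_max_left δ β).trans (hge _))
      simp only [Set.mem_ofPred_eq, ne_eq, not_not] at h1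
      have h2 := hx (t (Fin.last n))
      apply h2
      right
      refine mem_iUnion.2 ⟨n, mem_iUnion.2 ⟨⟨β, (le_max_right δ β).trans (hge _)⟩,
        mem_iUnion.2 ⟨fun i => ⟨t i.castSucc, ht (Fin.castSucc_lt_last i)⟩, ?_⟩⟩⟩
      simp only [sec]
      have h3 : (fun i => x (t (Fin.castSucc i))) = x ∘ fun i : Fin n => t i.castSucc := rfl
      rw [h3, if_pos h1]
      simp only [Set.mem_ofPred_eq]
      have h4 : (Fin.snoc (x ∘ fun i : Fin n => t i.castSucc) (x (t (Fin.last n))) :
          Fin (n + 1) → ℝ) = x ∘ t := by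
        have := Fin.snoc_init_self (x ∘ t : Fin (n + 1) → ℝ)
        exact this
      rw [h4]
      exact hβ hmem
  refine ⟨x, hinj, fun n M hM => ?_⟩
  choose δ hδ using fun σ : Equiv.Perm (Fin n) => hmono n _ (null_perm hM σ)
  obtain ⟨δ', hδ'⟩ : ∃ δ' : ι, ∀ σ, δ σ ≤ δ' := by
    refine ⟨Finset.univ.sup' Finset.univ_nonempty δ, fun σ => Finset.le_sup' δ (Finset.mem_univ σ)⟩
  refine ⟨δ', fun t ht hge hmem => ?_⟩
  set σ := Tuple.sort t with hσ
  have h1 : StrictMono (t ∘ σ) :=
    (Tuple.monotone_sort t).strictMono_of_injective (ht.comp σ.injective)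
  refine hδ σ⁻¹ (t ∘ σ) h1 (fun i => (hδ' _).trans (hge _)) ?_
  simp only [Set.mem_ofPred_eq]
  convert hmem using 1
  ext i
  simp

/-- A base of `ℵ₁` null sets in all finite dimensions gives a strong Sierpiński set. -/
theorem exists_of_cof (hcof : ∀ n : ℕ, ∃ F : Set (Set (Fin n → ℝ)), #F ≤ ℵ₁ ∧
      (∀ M ∈ F, volume M = 0) ∧ ∀ N : Set (Fin n → ℝ), volume N = 0 → ∃ M ∈ F, N ⊆ M) :
    ∃ A : Set ℝ, #A = ℵ₁ ∧ PowersS A := by
  let ι := (Cardinal.aleph 1).ord.ToType
  have hιcard : #ι = ℵ₁ := mk_ord_toType _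
  have hne : Nonempty ι := by
    rw [← mk_ne_zero_iff, hιcard]
    exact (aleph_pos 1).ne'
  have hιc : ∀ α : ι, (Iic α).Countable := by
    intro α
    have h1 : #(Iio α) < ℵ₁ := by
      have := mk_Iio_lt α (by simp [ι])
      rwa [hιcard] at this
    have h2 : (Iio α).Countable := by
      rw [← le_aleph0_iff_set_countable]
      exact lt_aleph_one_iff.1 h1
    rw [← Iio_insert]
    exact h2.insert α
  choose F hF1 hF2 hF3 using hcof
  have hsurj : ∀ n, ∃ g : ι → Set (Fin n → ℝ), (∀ β, volume (g β) = 0) ∧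
      ∀ M, volume M = 0 → ∃ β, M ⊆ g β := by
    intro n
    have hFne : Nonempty (F n) := by
      obtain ⟨M, hM, -⟩ := hF3 n ∅ (by simp)
      exact ⟨⟨M, hM⟩⟩
    have h1 : #(F n) ≤ #ι := by rw [hιcard]; exact hF1 n
    obtain ⟨e⟩ := h1
    refine ⟨fun β => (Function.invFun e β : F n), fun β => hF2 n _ (Function.invFun e β).2, ?_⟩
    intro M hM
    obtain ⟨M', hM', hsub⟩ := hF3 n M hM
    refine ⟨e ⟨M', hM'⟩, ?_⟩
    simp only [Function.leftInverse_invFun e.injective ⟨M', hM'⟩]
    exact hsub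
  choose N hN1 hN2 using hsurj
  obtain ⟨x, hinj, hx⟩ := exists_seq ι hιc N hN1 hN2
  refine ⟨range x, ?_, ?_⟩
  · rw [mk_range_eq x hinj, hιcard]
  · intro n M hM
    obtain ⟨δ, hδ⟩ := hx n M hM
    refine ⟨x '' Iio δ, ?_, image_subset_range _ _, ?_⟩
    · exact ((hιc δ).mono Iio_subset_Iic_self).image x
    · intro t ht htA
      have h1 : ∀ i, ∃ a, x a = t i := fun i => (htA i).1
      choose u hu using h1
      have h2 : t = x ∘ u := by ext i; simp [hu]
      rw [h2]
      refine hδ u ?_ ?_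
      · intro i j hij
        apply ht
        rw [← hu i, ← hu j, hij]
      · intro i
        by_contra h3
        push Not at h3
        exact (htA i).2 ⟨u i, h3, hu i⟩

end Pool.Agent.R943.Pla
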