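import Pool.Agent.R943.Pla.Main
set_option autoImplicit false

/-! # Non-expansive injections of a group generated by a strong Sierpiński set are isometries -/

namespace Pool.Agent.R943.Pla

open MeasureTheory Set Filter Topology
open scoped ENNReal NNReal

/-- A continuous map of the line which is non-expansive and covers at least the length of an
interval keeps the distance of its end points. -/
theorem endpoints {h : ℝ → ℝ} (hh : LipschitzWith 1 h) {u w : ℝ} (huw : u < w)
    (hvol : volume (Icc u w) ≤ volume (h '' Icc u w)) : w - u ≤ |h w - h u| := by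
  have hne : (Icc u w).Nonempty := nonempty_Icc.2 huw.le
  obtain ⟨p, hp, hpm⟩ := isCompact_Icc.exists_isMinOn hne hh.continuous.continuousOn
  obtain ⟨q, hq, hqm⟩ := isCompact_Icc.exists_isMaxOn hne hh.continuous.continuousOn
  have hsub : h '' Icc u w ⊆ Icc (h p) (h q) := by
    rintro _ ⟨x, hx, rfl⟩
    exact ⟨hpm hx, hqm hx⟩
  have h1 := hvol.trans (measure_mono hsub)
  rw [Real.volume_Icc, Real.volume_Icc] at h1
  have hpq : h p ≤ h q := hpm hq
  have h2 : w - u ≤ h q - h p := (ENNReal.ofReal_le_ofReal_iff (by linarith)).1 h1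
  have h3 : |h q - h p| ≤ |q - p| := by
    have := hh.dist_le_mul q p
    rw [Real.dist_eq, Real.dist_eq] at this
    simpa using this
  have h4 : w - u ≤ |q - p| := h2.trans ((le_abs_self _).trans h3)
  rcases le_total p q with hpq' | hpq'
  · rw [abs_of_nonneg (by linarith)] at h4
    have e1 : p = u := le_antisymm (by linarith [hq.2]) hp.1
    have e2 : q = w := le_antisymm hq.2 (by linarith [hp.1])
    rw [e1, e2] at h2
    exact h2.trans (le_abs_self _)
  · rw [abs_of_nonpos (by linarith)] at h4
    have e1 : q = u := le_antisymm (by linarith [hp.2]) hq.1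
    have e2 : p = w := le_antisymm hp.2 (by linarith [hq.1])
    rw [e1, e2] at h2
    rw [abs_sub_comm]
    exact h2.trans (le_abs_self _)

theorem isometry_of {A : Set ℝ} (hA : ¬ A.Countable) (hP : PowersS A) (G : AddSubgroup ℝ)
    (hG : G = AddSubgroup.closure A) (f : G → G) (hf : Function.Injective f)
    (hd : ∀ x y, dist (f x) (f y) ≤ dist x y) : ∀ x y, dist (f x) (f y) = dist x y := by
  classical
  -- the extension
  obtain ⟨h, hh, hhf⟩ : ∃ h : ℝ → ℝ, LipschitzWith 1 h ∧ ∀ x : G, h x = f x := by
    let F : ℝ → ℝ := fun x => if hx : x ∈ G then (f ⟨x, hx⟩ : ℝ) else 0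
    have hF : LipschitzOnWith 1 F (G : Set ℝ) := by
      refine LipschitzOnWith.of_dist_le_mul fun x hx y hy => ?_
      simp only [F, SetLike.mem_coe] at hx hy ⊢
      rw [dif_pos hx, dif_pos hy]
      rw [NNReal.coe_one, one_mul]
      exact hd ⟨x, hx⟩ ⟨y, hy⟩
    obtain ⟨h, hh, hhF⟩ := hF.extend_real
    refine ⟨h, hh, fun x => ?_⟩
    rw [← hhF x.2]
    simp [F]
  have hinj : ∀ x ∈ G, ∀ y ∈ G, h x = h y → x = y := by
    intro x hx y hy hxy
    have h1 := hhf ⟨x, hx⟩
    have h2 := hhf ⟨y, hy⟩
    simp only at h1 h2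
    have h3 : f ⟨x, hx⟩ = f ⟨y, hy⟩ := Subtype.ext (by rw [← h1, ← h2, hxy])
    exact congrArg Subtype.val (hf h3)
  have hlip : ∀ x y, |h x - h y| ≤ |x - y| := by
    intro x y
    have := hh.dist_le_mul x y
    rw [Real.dist_eq, Real.dist_eq] at this
    simpa using this
  obtain ⟨D, Q, hDc, hDA, hQc, hQ, hQD, hstr⟩ := exists_D hA hP hh.continuous
  rw [← hG] at hstr
  have hmeet : ∀ B : Set ℝ, MeasurableSet B → volume B ≠ 0 → ∃ z ∈ G, z ∈ B := by
    intro B hB hB0
    rw [hG]
    exact meets_closure hA hP hB hB0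
  have hAG : ∀ a ∈ A, a ∈ G := fun a ha => by rw [hG]; exact AddSubgroup.subset_closure ha
  have hDG : AddSubgroup.closure D ≤ G := by rw [hG]; exact AddSubgroup.closure_mono hDA
  -- the pieces
  have : Countable (AddSubgroup.closure D : Set ℝ) := (closure_countable hDc).to_subtype
  obtain ⟨e, he⟩ := exists_surjective_nat (ℤ × (AddSubgroup.closure D : Set ℝ))
  set c : ℕ → ℤ := fun n => (e n).1 with hc
  set y : ℕ → ℝ := fun n => ((e n).2 : ℝ) with hy
  have hyD : ∀ n, y n ∈ AddSubgroup.closure D := fun n => (e n).2.2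
  set Z : ℕ → Set ℝ := fun n => {u | h u = c n * u + y n} with hZ
  have hZm : ∀ n, MeasurableSet (Z n) := fun n =>
    (isClosed_eq hh.continuous (by fun_prop)).measurableSet
  have hZ0 : volume (⋃ n, Z n)ᶜ = 0 := by
    by_contra hcon
    obtain ⟨a, ha, q, hq, haq⟩ := meets hA hP (MeasurableSet.iUnion hZm).compl hcon hQ hQc hDc
    apply haq
    have hqG : q ∈ AddSubgroup.closure D := hQD hq
    have haqG : a + q ∈ G := AddSubgroup.add_mem _ (hAG a ha.1) (hDG hqG)
    obtain ⟨k, z, hz, hkz⟩ := hstr a ha q hqG (by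
      rw [hhf ⟨a + q, haqG⟩]
      exact (f ⟨a + q, haqG⟩).2)
    have hz' : z - k * q ∈ AddSubgroup.closure D := by
      rw [← zsmul_eq_mul]
      exact AddSubgroup.sub_mem _ hz (AddSubgroup.zsmul_mem _ hqG _)
    obtain ⟨n, hn⟩ := he (k, ⟨z - k * q, hz'⟩)
    refine mem_iUnion.2 ⟨n, ?_⟩
    simp only [hZ, hc, hy, Set.mem_ofPred_eq, hn, hkz]
    ring
  have hgood : ∀ n, volume (Z n) ≠ 0 → c n = 1 ∨ c n = -1 := by
    intro n hn
    obtain ⟨z1, hz1G, hz1⟩ := hmeet _ (hZm n) hn
    obtain ⟨z2, hz2G, hz2, hz21⟩ := hmeet (Z n \ {z1})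
      ((hZm n).diff (measurableSet_singleton z1)) (by
        rw [measure_sdiff_null (by simp)]
        exact hn)
    have hz21' : z2 ≠ z1 := hz21
    simp only [hZ, Set.mem_ofPred_eq] at hz1 hz2
    have h1 : h z2 - h z1 = c n * (z2 - z1) := by rw [hz1, hz2]; ring
    have h2 := hlip z2 z1
    rw [h1, abs_mul] at h2
    have h3 : 0 < |z2 - z1| := abs_pos.2 (sub_ne_zero.2 hz21')
    have h4 : |(c n : ℝ)| ≤ 1 := by
      by_contra h5
      push Not at h5
      nlinarith
    have h5 : |c n| ≤ 1 := by exact_mod_cast h4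
    have h6 : c n ≠ 0 := by
      intro h7
      rw [h7] at h1
      apply hz21'
      apply hinj z2 hz2G z1 hz1G
      have : h z2 - h z1 = 0 := by rw [h1]; simp
      linarith
    rw [abs_le] at h5
    omega
  -- an interval
  have hint : ∀ u w : ℝ, u < w → w - u ≤ |h w - h u| := by
    intro u w huw
    apply endpoints hh huw
    set T := Icc u w with hT
    set E : ℕ → Set ℝ := disjointed fun n => Z n ∩ T with hE
    have hEm : ∀ n, MeasurableSet (E n) := fun n =>
      MeasurableSet.disjointed (fun n => (hZm n).inter measurableSet_Icc) n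
    have hEsub : ∀ n, E n ⊆ Z n ∩ T := fun n => disjointed_subset _ n
    have hEdis : ∀ i j, i ≠ j → Disjoint (E i) (E j) := fun i j hij => disjoint_disjointed _ hij
    have hEU : ⋃ n, E n = ⋃ n, Z n ∩ T := iUnion_disjointed
    set F : ℕ → Set ℝ := fun n => if c n = 1 ∨ c n = -1 then {s | c n * (s - y n) ∈ E n} else ∅
      with hF
    have hFm : ∀ n, MeasurableSet (F n) := by
      intro n
      simp only [hF]
      split_ifs
      · exact (Continuous.measurable (by fun_prop) : Measurable fun s : ℝ =>
          (c n : ℝ) * (s - y n)) (hEm n)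
      · exact MeasurableSet.empty
    have hFv : ∀ n, volume (F n) = volume (E n) := by
      intro n
      by_cases hn : c n = 1 ∨ c n = -1
      · simp only [hF]
        rw [if_pos hn]
        rcases hn with hn | hn
        · have : {s : ℝ | (c n : ℝ) * (s - y n) ∈ E n} = (fun s => s - y n) ⁻¹' E n := by
            ext s
            simp [hn]
          rw [this]
          exact (measurePreserving_sub_right volume (y n)).measure_preimage
            (hEm n).nullMeasurableSet
        · have : {s : ℝ | (c n : ℝ) * (s - y n) ∈ E n} = (fun s => y n - s) ⁻¹' E n := by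
            ext s
            simp [hn]
          rw [this]
          exact (Measure.measurePreserving_sub_left volume (y n)).measure_preimage
            (hEm n).nullMeasurableSet
      · have h1 : volume (Z n) = 0 := by
          by_contra h2
          exact hn (hgood n h2)
        have h2 : volume (E n) = 0 := measure_mono_null ((hEsub n).trans inter_subset_left) h1
        rw [h2]
        simp [hF, hn]
    have hFz : ∀ n, ∀ s ∈ F n, (c n * (s - y n) : ℝ) ∈ E n ∧ h (c n * (s - y n)) = s ∧
        (s ∈ G → (c n * (s - y n) : ℝ) ∈ G) := by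
      intro n s hs
      by_cases hn : c n = 1 ∨ c n = -1
      · simp only [hF] at hs
        rw [if_pos hn, Set.mem_ofPred_eq] at hs
        refine ⟨hs, ?_, ?_⟩
        · have h1 := (hEsub n hs).1
          simp only [hZ, Set.mem_ofPred_eq] at h1
          rw [h1]
          rcases hn with hn | hn <;> rw [hn] <;> push_cast <;> ring
        · intro hsG
          rw [← zsmul_eq_mul]
          exact AddSubgroup.zsmul_mem _ (AddSubgroup.sub_mem _ hsG (hDG (hyD n))) _
      · simp only [hF] at hs
        rw [if_neg hn] at hs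
        exact absurd hs (notMem_empty _)
    have hFdis : Pairwise (Function.onFun (AEDisjoint volume) F) := by
      intro i j hij
      rw [Function.onFun, AEDisjoint]
      by_contra hcon
      obtain ⟨s, hsG, hsi, hsj⟩ := hmeet _ ((hFm i).inter (hFm j)) hcon
      obtain ⟨h1, h2, h3⟩ := hFz i s hsi
      obtain ⟨h4, h5, h6⟩ := hFz j s hsj
      have h7 := hinj _ (h3 hsG) _ (h6 hsG) (by rw [h2, h5])
      rw [← h7] at h4
      exact (Set.disjoint_left.1 (hEdis i j hij)) h1 h4
    calc volume T ≤ volume ((⋃ n, E n) ∪ (⋃ n, Z n)ᶜ) := by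
          apply measure_mono
          intro x hx
          by_cases hxz : x ∈ ⋃ n, Z n
          · left
            rw [hEU]
            obtain ⟨n, hn⟩ := mem_iUnion.1 hxz
            exact mem_iUnion.2 ⟨n, hn, hx⟩
          · exact Or.inr hxz
      _ ≤ volume (⋃ n, E n) + volume (⋃ n, Z n)ᶜ := measure_union_le _ _
      _ = volume (⋃ n, E n) := by rw [hZ0, add_zero]
      _ ≤ ∑' n, volume (E n) := measure_iUnion_le _
      _ = ∑' n, volume (F n) := by simp_rw [hFv]
      _ = volume (⋃ n, F n) := (measure_iUnion₀ hFdis fun n => (hFm n).nullMeasurableSet).symm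
      _ ≤ volume (h '' T) := by
          apply measure_mono
          refine iUnion_subset fun n s hs => ?_
          obtain ⟨h1, h2, -⟩ := hFz n s hs
          exact ⟨_, (hEsub n h1).2, h2⟩
  have habs : ∀ u w : ℝ, |w - u| ≤ |h w - h u| := by
    intro u w
    rcases lt_trichotomy u w with h1 | h1 | h1
    · rw [abs_of_pos (sub_pos.2 h1)]; exact hint u w h1
    · rw [h1]; simp
    · rw [abs_sub_comm, abs_of_pos (sub_pos.2 h1), abs_sub_comm]; exact hint w u h1
  intro x z
  refine le_antisymm (hd x z) ?_
  rw [Subtype.dist_eq, Subtype.dist_eq, ← hhf x, ← hhf z, Real.dist_eq, Real.dist_eq]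
  exact habs z x

end Pool.Agent.R943.Pla
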