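import Pool.Agent.R943.Pla.Struct
set_option autoImplicit false

/-! # Non-expansive injections of a group generated by a strong Sierpiński set are isometries -/

namespace Pool.Agent.R943.Pla

open MeasureTheory Set Filter Topology
open scoped ENNReal NNReal

theorem dense_closure {A : Set ℝ} (hA : ¬ A.Countable) :
    Dense (AddSubgroup.closure A : Set ℝ) := by
  rcases (AddSubgroup.closure A).dense_or_cyclic with h | ⟨a, ha⟩
  · exact h
  · exfalso
    apply hA
    have h1 : (AddSubgroup.closure A : Set ℝ).Countable := by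
      rw [ha]
      exact closure_countable (countable_singleton a)
    exact h1.mono AddSubgroup.subset_closure

theorem countable_inter_null {A : Set ℝ} (hP : PowersS A) {N : Set ℝ} (hN : volume N = 0) :
    (A ∩ N).Countable := by
  have h1 : volume {v : Fin 1 → ℝ | v 0 ∈ N} = 0 :=
    (Measure.quasiMeasurePreserving_eval (fun _ : Fin 1 => (volume : Measure ℝ)) 0).preimage_null hN
  obtain ⟨D, hDc, -, hD⟩ := hP 1 _ h1
  refine hDc.mono fun a ha => ?_
  by_contra haD
  exact hD (fun _ => a) (Function.injective_of_subsingleton _) (fun _ => ⟨ha.1, haD⟩) ha.2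

theorem meets {A B Q D : Set ℝ} (hA : ¬ A.Countable) (hP : PowersS A) (hB : MeasurableSet B)
    (hB0 : volume B ≠ 0) (hQ : Dense Q) (hQc : Q.Countable) (hD : D.Countable) :
    ∃ a ∈ A \ D, ∃ q ∈ Q, a + q ∈ B := by
  by_contra hcon
  push Not at hcon
  have h1 := countable_inter_null hP (conull_translates hB hB0 hQ hQc)
  apply hA
  refine (h1.union hD).mono fun a ha => ?_
  by_cases h : a ∈ D
  · exact Or.inr h
  · exact Or.inl ⟨ha, fun q hq => hcon a ⟨ha, h⟩ q hq⟩

theorem exists_countable_dense {A : Set ℝ} (hA : ¬ A.Countable) :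
    ∃ Q : Set ℝ, Q ⊆ AddSubgroup.closure A ∧ Q.Countable ∧ Dense Q := by
  obtain ⟨Q, hQ1, hQ2, hQ3⟩ :=
    (TopologicalSpace.IsSeparable.of_separableSpace
      (AddSubgroup.closure A : Set ℝ)).exists_countable_dense_subset
  exact ⟨Q, hQ1, hQ2, fun x => closure_minimal hQ3 isClosed_closure (dense_closure hA x)⟩

theorem meets_closure {A B : Set ℝ} (hA : ¬ A.Countable) (hP : PowersS A) (hB : MeasurableSet B)
    (hB0 : volume B ≠ 0) : ∃ z ∈ AddSubgroup.closure A, z ∈ B := by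
  obtain ⟨Q, hQ1, hQ2, hQ3⟩ := exists_countable_dense hA
  obtain ⟨a, ha, q, hq, h⟩ := meets hA hP hB hB0 hQ3 hQ2 countable_empty
  exact ⟨a + q, AddSubgroup.add_mem _ (AddSubgroup.subset_closure ha.1) (hQ1 hq), h⟩

theorem exists_countable_gen {A Q : Set ℝ} (hQ : Q ⊆ AddSubgroup.closure A) (hQc : Q.Countable) :
    ∃ D : Set ℝ, D.Countable ∧ D ⊆ A ∧ Q ⊆ AddSubgroup.closure D := by
  choose! c hcA hc using fun z (hz : z ∈ Q) => mem_closure_repr (hQ hz)
  refine ⟨⋃ z ∈ Q, ((c z).support : Set ℝ), hQc.biUnion fun z _ => (c z).support.countable_toSet,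
    ?_, ?_⟩
  · refine iUnion₂_subset fun z hz a ha => ?_
    rw [Finset.mem_coe, Finsupp.mem_support_iff] at ha
    exact hcA z hz a ha
  · intro z hz
    rw [SetLike.mem_coe, hc z hz, Finsupp.sum]
    refine AddSubgroup.sum_mem _ fun a ha => ?_
    rw [← zsmul_eq_mul]
    refine AddSubgroup.zsmul_mem _ (AddSubgroup.subset_closure ?_) _
    exact mem_iUnion₂.2 ⟨z, hz, ha⟩

theorem exists_D {A : Set ℝ} (hA : ¬ A.Countable) (hP : PowersS A) {h : ℝ → ℝ}
    (hh : Continuous h) : ∃ D Q : Set ℝ, D.Countable ∧ D ⊆ A ∧ Q.Countable ∧ Dense Q ∧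
      Q ⊆ AddSubgroup.closure D ∧
      ∀ a ∈ A \ D, ∀ g ∈ AddSubgroup.closure D, h (a + g) ∈ AddSubgroup.closure A →
        ∃ c : ℤ, ∃ y ∈ AddSubgroup.closure D, h (a + g) = c * a + y := by
  obtain ⟨Q, hQ1, hQ2, hQ3⟩ := exists_countable_dense hA
  obtain ⟨D₀, hD1, hD2, hD3⟩ := exists_countable_gen hQ1 hQ2
  have key : ∀ (g y : ℝ) (n : ℕ) (c : ℤ) (d : Fin (n + 1) → ℤ), ∃ D : Set ℝ, D.Countable ∧
      D ⊆ A ∧ (d (Fin.last n) ≠ 0 → ∀ t : Fin (n + 2) → ℝ, Function.Injective t →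
      (∀ i, t i ∈ A \ D) → t ∉ Rel h n g y c d) := by
    intro g y n c d
    by_cases hd : d (Fin.last n) = 0
    · exact ⟨∅, countable_empty, empty_subset _, fun h => absurd hd h⟩
    · obtain ⟨D, h1, h2, h3⟩ := hP (n + 2) _ (null_rel hh n g y c d hd)
      exact ⟨D, h1, h2, fun _ => h3⟩
  choose Df hDc hDA hDf using key
  obtain ⟨D, hDc', hDA', hD0, hcl⟩ := exists_closed A
    (fun g y => ⋃ n, ⋃ c, ⋃ d, Df g y n c d)
    (fun g y => ⟨countable_iUnion fun n => countable_iUnion fun c => countable_iUnion fun d =>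
      hDc g y n c d, iUnion_subset fun n => iUnion_subset fun c => iUnion_subset fun d =>
      hDA g y n c d⟩) D₀ hD1 hD2
  refine ⟨D, Q, hDc', hDA', hQ2, hQ3, hD3.trans (AddSubgroup.closure_mono hD0), ?_⟩
  intro a ha g hg hz
  refine struct ?_ ha hg hz
  intro g hg y hy n c d hd t hti ht
  refine hDf g y n c d hd t hti fun i => ⟨(ht i).1, fun h => (ht i).2 ?_⟩
  apply hcl g hg y hy
  exact mem_iUnion.2 ⟨n, mem_iUnion.2 ⟨c, mem_iUnion.2 ⟨d, h⟩⟩⟩

end Pool.Agent.R943.Pla
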