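import Pool.Agent.R943.Pla.Base
set_option autoImplicit false

/-! # Values of a map on a group generated by a set whose finite powers avoid null sets -/

namespace Pool.Agent.R943.Pla

open MeasureTheory Set Filter Topology
open scoped ENNReal

theorem mem_closure_repr {A : Set ℝ} {z : ℝ} (hz : z ∈ AddSubgroup.closure A) :
    ∃ c : ℝ →₀ ℤ, (∀ a, c a ≠ 0 → a ∈ A) ∧ z = c.sum fun a k => (k : ℝ) * a := by
  induction hz using AddSubgroup.closure_induction with
  | mem x hx =>
    refine ⟨Finsupp.single x 1, fun a ha => ?_, by simp⟩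
    by_cases h : a = x
    · rw [h]; exact hx
    · exact absurd (Finsupp.single_eq_of_ne h) ha
  | zero => exact ⟨0, by simp, by simp⟩
  | add x y _ _ hx hy =>
    obtain ⟨c, hc1, hc2⟩ := hx
    obtain ⟨d, hd1, hd2⟩ := hy
    refine ⟨c + d, fun a ha => ?_, ?_⟩
    · by_cases h : c a = 0
      · apply hd1
        intro h2
        apply ha
        rw [Finsupp.add_apply, h, h2, add_zero]
      · exact hc1 a h
    · rw [Finsupp.sum_add_index', ← hc2, ← hd2]
      · simp
      · intro a k l; push_cast; ring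
  | neg x _ hx =>
    obtain ⟨c, hc1, hc2⟩ := hx
    refine ⟨-c, fun a ha => hc1 a ?_, ?_⟩
    · intro h; apply ha; rw [Finsupp.neg_apply, h, neg_zero]
    · rw [Finsupp.sum_neg_index (by simp), hc2, Finsupp.sum, Finsupp.sum, ← Finset.sum_neg_distrib]
      refine Finset.sum_congr rfl fun a _ => ?_
      push_cast; ring

theorem closure_countable {D : Set ℝ} (hD : D.Countable) :
    (AddSubgroup.closure D : Set ℝ).Countable := by
  have : Countable D := hD.to_subtype
  have hsub : (AddSubgroup.closure D : Set ℝ) ⊆ range (fun c : D →₀ ℤ => c.sum fun a k => (k : ℝ) * a) := by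
    intro z hz
    rw [SetLike.mem_coe] at hz
    induction hz using AddSubgroup.closure_induction with
    | mem x hx => exact ⟨Finsupp.single ⟨x, hx⟩ 1, by simp⟩
    | zero => exact ⟨0, by simp⟩
    | add x y _ _ hx hy =>
      obtain ⟨c, hc⟩ := hx
      obtain ⟨d, hd⟩ := hy
      refine ⟨c + d, ?_⟩
      simp only at hc hd ⊢
      rw [Finsupp.sum_add_index', hc, hd]
      · simp
      · intro a k l; push_cast; ring
    | neg x _ hx =>
      obtain ⟨c, hc⟩ := hx
      refine ⟨-c, ?_⟩
      simp only at hc ⊢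
      rw [Finsupp.sum_neg_index (by simp), ← hc, Finsupp.sum, Finsupp.sum, ← Finset.sum_neg_distrib]
      refine Finset.sum_congr rfl fun a _ => ?_
      push_cast; ring
  exact (countable_range _).mono hsub

/-- the graph of a measurable function of the first coordinates is null -/
theorem null_graph {n : ℕ} (ψ : (Fin n → ℝ) → ℝ) (hψ : Measurable ψ) :
    volume {v : Fin (n + 1) → ℝ | v (Fin.last n) = ψ (fun i => v i.castSucc)} = 0 := by
  have hmp := volume_preserving_piFinSuccAbove (fun _ : Fin (n + 1) => ℝ) (Fin.last n)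
  set T : Set (ℝ × (Fin n → ℝ)) := {p | p.1 = ψ p.2} with hT
  have hTm : MeasurableSet T := measurableSet_eq_fun measurable_fst (hψ.comp measurable_snd)
  have h1 : {v : Fin (n + 1) → ℝ | v (Fin.last n) = ψ (fun i => v i.castSucc)} =
      (MeasurableEquiv.piFinSuccAbove (fun _ : Fin (n + 1) => ℝ) (Fin.last n)) ⁻¹' T := by
    ext v
    simp only [hT, Set.mem_ofPred_eq, Set.mem_preimage, MeasurableEquiv.piFinSuccAbove,
      Fin.insertNthEquiv]
    simp
    rfl
  rw [h1, hmp.measure_preimage hTm.nullMeasurableSet]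
  have h2 := (Measure.measurePreserving_swap (μ := (volume : Measure (Fin n → ℝ)))
      (ν := (volume : Measure ℝ))).measure_preimage hTm.nullMeasurableSet
  have h3 : (volume : Measure (ℝ × (Fin n → ℝ))) T = (volume.prod volume) T := by
    rw [Measure.volume_eq_prod]
  rw [h3, ← h2, Measure.measure_prod_null (measurable_swap hTm)]
  filter_upwards with w
  have : Prod.mk w ⁻¹' (Prod.swap ⁻¹' T) = {ψ w} := by
    ext r
    simp [hT]
  rw [this]
  simp

/-- The relation `h(v₀ + g) = c v₀ + Σ d_j v_{j+1} + y`. -/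
def Rel (h : ℝ → ℝ) (n : ℕ) (g y : ℝ) (c : ℤ) (d : Fin (n + 1) → ℤ) : Set (Fin (n + 2) → ℝ) :=
  {v | h (v 0 + g) = c * v 0 + ∑ j : Fin (n + 1), (d j : ℝ) * v j.succ + y}

theorem null_rel {h : ℝ → ℝ} (hh : Continuous h) (n : ℕ) (g y : ℝ) (c : ℤ) (d : Fin (n + 1) → ℤ)
    (hd : d (Fin.last n) ≠ 0) : volume (Rel h n g y c d) = 0 := by
  have hd' : (d (Fin.last n) : ℝ) ≠ 0 := by exact_mod_cast hd
  refine measure_mono_null ?_ (null_graph (n := n + 1) (fun w =>
    (h (w 0 + g) - c * w 0 - ∑ j : Fin n, (d j.castSucc : ℝ) * w j.succ - y) / d (Fin.last n)) ?_)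
  · intro v hv
    simp only [Rel, Set.mem_ofPred_eq] at hv ⊢
    rw [Fin.sum_univ_castSucc] at hv
    rw [eq_div_iff hd']
    simp only [Fin.succ_castSucc, Fin.succ_last] at hv
    have h0 : (0 : Fin (n + 1)).castSucc = (0 : Fin (n + 2)) := rfl
    rw [h0]
    linarith
  · refine Continuous.measurable ?_
    fun_prop

/-- All finite powers of `A` meet null sets only in tuples with a coordinate in a countable set. -/
def PowersS (A : Set ℝ) : Prop :=
  ∀ (n : ℕ) (N : Set (Fin n → ℝ)), volume N = 0 → ∃ D : Set ℝ, D.Countable ∧ D ⊆ A ∧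
    ∀ t : Fin n → ℝ, Function.Injective t → (∀ i, t i ∈ A \ D) → t ∉ N

theorem exists_closed (A : Set ℝ) (Φ : ℝ → ℝ → Set ℝ) (hΦ : ∀ g y, (Φ g y).Countable ∧ Φ g y ⊆ A)
    (D₀ : Set ℝ) (h₀ : D₀.Countable) (h₀A : D₀ ⊆ A) :
    ∃ D : Set ℝ, D.Countable ∧ D ⊆ A ∧ D₀ ⊆ D ∧
      ∀ g ∈ AddSubgroup.closure D, ∀ y ∈ AddSubgroup.closure D, Φ g y ⊆ D := by
  let step : Set ℝ → Set ℝ := fun D => D ∪ ⋃ g ∈ (AddSubgroup.closure D : Set ℝ),
    ⋃ y ∈ (AddSubgroup.closure D : Set ℝ), Φ g y
  let E : ℕ → Set ℝ := fun n => step^[n] D₀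
  have hE0 : E 0 = D₀ := rfl
  have hE1 : ∀ n, E (n + 1) = step (E n) := fun n => Function.iterate_succ_apply' step n D₀
  have hmono : Monotone E := monotone_nat_of_le_succ fun n => by
    rw [hE1]; exact subset_union_left
  have hcount : ∀ n, (E n).Countable ∧ E n ⊆ A := by
    intro n
    induction n with
    | zero => exact ⟨h₀, h₀A⟩
    | succ n ih =>
      rw [hE1]
      constructor
      · refine ih.1.union ?_
        refine (closure_countable ih.1).biUnion fun g _ => ?_
        exact (closure_countable ih.1).biUnion fun y _ => (hΦ g y).1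
      · refine union_subset ih.2 ?_
        refine iUnion₂_subset fun g _ => iUnion₂_subset fun y _ => (hΦ g y).2
  have hcl : ∀ z ∈ AddSubgroup.closure (⋃ n, E n), ∃ n, z ∈ AddSubgroup.closure (E n) := by
    intro z hz
    rw [AddSubgroup.closure_iUnion] at hz
    rw [AddSubgroup.mem_iSup_of_directed] at hz
    · exact hz
    · intro i j
      exact ⟨max i j, AddSubgroup.closure_mono (hmono (le_max_left i j)),
        AddSubgroup.closure_mono (hmono (le_max_right i j))⟩
  refine ⟨⋃ n, E n, countable_iUnion fun n => (hcount n).1, iUnion_subset fun n => (hcount n).2,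
    subset_iUnion E 0, ?_⟩
  intro g hg y hy
  obtain ⟨n, hn⟩ := hcl g hg
  obtain ⟨m, hm⟩ := hcl y hy
  have hn' : g ∈ AddSubgroup.closure (E (max n m)) :=
    AddSubgroup.closure_mono (hmono (le_max_left n m)) hn
  have hm' : y ∈ AddSubgroup.closure (E (max n m)) :=
    AddSubgroup.closure_mono (hmono (le_max_right n m)) hm
  refine Subset.trans ?_ (subset_iUnion E (max n m + 1))
  rw [hE1]
  refine Subset.trans ?_ subset_union_right
  exact Subset.trans (subset_iUnion₂_of_subset y hm' Subset.rfl)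
    (subset_iUnion₂ (s := fun g (_ : g ∈ (AddSubgroup.closure (E (max n m)) : Set ℝ)) =>
      ⋃ y ∈ (AddSubgroup.closure (E (max n m)) : Set ℝ), Φ g y) g hn')

/-- `f(a + g)` involves only `a` and elements of `D`. -/
theorem struct {A D : Set ℝ} {h : ℝ → ℝ}
    (hcl : ∀ g ∈ AddSubgroup.closure D, ∀ y ∈ AddSubgroup.closure D, ∀ (n : ℕ) (c : ℤ)
      (d : Fin (n + 1) → ℤ), d (Fin.last n) ≠ 0 → ∀ t : Fin (n + 2) → ℝ, Function.Injective t →
      (∀ i, t i ∈ A \ D) → t ∉ Rel h n g y c d)
    {a g : ℝ} (ha : a ∈ A \ D) (hg : g ∈ AddSubgroup.closure D)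
    (hz : h (a + g) ∈ AddSubgroup.closure A) :
    ∃ c : ℤ, ∃ y ∈ AddSubgroup.closure D, h (a + g) = c * a + y := by
  classical
  obtain ⟨c, hcA, hc⟩ := mem_closure_repr hz
  set f : ℝ → ℝ := fun s => (c s : ℝ) * s with hf
  set S := c.support with hS
  set R := (S.filter fun s => s ∉ D).filter fun s => s ≠ a with hR
  set y := ∑ s ∈ S.filter fun s => s ∈ D, f s with hy
  have hyD : y ∈ AddSubgroup.closure D := by
    apply AddSubgroup.sum_mem
    intro s hs
    rw [Finset.mem_filter] at hs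
    simp only [hf]
    rw [← zsmul_eq_mul]
    exact AddSubgroup.zsmul_mem _ (AddSubgroup.subset_closure hs.2) _
  have hsum : h (a + g) = c a * a + ∑ s ∈ R, f s + y := by
    have e1 : h (a + g) = ∑ s ∈ S, f s := hc
    rw [e1, ← Finset.sum_filter_add_sum_filter_not S (fun s => s ∈ D), add_comm]
    congr 1
    rw [← Finset.sum_filter_add_sum_filter_not (S.filter fun s => s ∉ D) (fun s => s = a)]
    congr 1
    rw [Finset.sum_filter, Finset.sum_ite_eq']
    by_cases h1 : a ∈ S.filter fun s => s ∉ D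
    · rw [if_pos h1]
    · rw [if_neg h1]
      have : a ∉ S := fun h2 => h1 (Finset.mem_filter.2 ⟨h2, ha.2⟩)
      rw [hS, Finsupp.mem_support_iff, not_not] at this
      rw [this]; simp
  rcases R.eq_empty_or_nonempty with hR0 | hR0
  · refine ⟨c a, y, hyD, ?_⟩
    rw [hsum, hR0]; simp
  · exfalso
    obtain ⟨n, hn⟩ : ∃ n, R.card = n + 1 := ⟨R.card - 1, by
      have := hR0.card_pos; omega⟩
    set t := R.orderEmbOfFin hn with ht
    have htR : ∀ j, t j ∈ R := fun j => Finset.orderEmbOfFin_mem R hn j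
    have hRm : ∀ s ∈ R, s ∈ A \ D ∧ s ≠ a ∧ c s ≠ 0 := by
      intro s hs
      rw [hR, Finset.mem_filter, Finset.mem_filter, hS, Finsupp.mem_support_iff] at hs
      exact ⟨⟨hcA s hs.1.1, hs.1.2⟩, hs.2, hs.1.1⟩
    refine hcl g hg y hyD n (c a) (fun j => c (t j)) (hRm _ (htR _)).2.2 (Fin.cons a t) ?_ ?_ ?_
    · rw [Fin.cons_injective_iff]
      refine ⟨?_, t.injective⟩
      rintro ⟨j, hj⟩
      exact (hRm _ (htR j)).2.1 hj
    · intro i
      refine Fin.cases ?_ (fun j => ?_) i
      · exact ha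
      · exact (hRm _ (htR j)).1
    · simp only [Rel, Set.mem_ofPred_eq, Fin.cons_zero, Fin.cons_succ]
      rw [hsum]
      congr 2
      have : ∑ j : Fin (n + 1), (c (t j) : ℝ) * t j = ∑ j : Fin (n + 1), f (t j) := rfl
      rw [this, ← Finset.sum_coe_sort R f]
      refine (Fintype.sum_equiv (R.orderIsoOfFin hn).toEquiv _ _ fun j => ?_).symm
      rfl

end Pool.Agent.R943.Pla
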